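import Pool.Agent.Helper41.PS.Goals

/-!
# Project PS (MP_74f661_nt), packet LOW
-/

set_option autoImplicit false

open Finset

open scoped Classical

namespace Pool.Agent.Helper34.PS.LOW

open Pool.Agent.Helper41.PS

/-- the extension of a choice function by `∅` -/
noncomputable def gx (A : Finset ℕ) (p : ∀ a ∈ A, Finset ℕ) (a : ℕ) : Finset ℕ :=
  if h : a ∈ A then p a h else ∅

theorem prod_sum' (A : Finset ℕ) (t : Finset (Finset ℕ)) (f : ℕ → Finset ℕ → ℝ) :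
    ∏ a ∈ A, ∑ D ∈ t, f a D = ∑ p ∈ A.pi (fun _ => t), ∏ a ∈ A, f a (gx A p a) := by
  rw [Finset.prod_sum]
  refine Finset.sum_congr rfl fun p _ => ?_
  rw [← Finset.prod_attach A (fun a => f a (gx A p a))]
  refine Finset.prod_congr rfl fun x _ => ?_
  unfold gx
  rw [dif_pos x.2]

theorem ff_sq (q a : ℕ) (D : Finset ℕ) (n : ℕ) : ff q a D n ^ 2 = ff q a D n := by
  unfold ff
  split_ifs <;> simp

theorem ff_nonneg (q a : ℕ) (D : Finset ℕ) (n : ℕ) : 0 ≤ ff q a D n := by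
  unfold ff
  split_ifs <;> simp

theorem card_DD (m L : ℕ) : ((DD m L).card : ℝ) ≤ (L : ℝ) ^ m := by
  unfold DD
  rw [Finset.card_powersetCard, Nat.card_Icc, Nat.add_sub_cancel]
  exact_mod_cast Nat.choose_le_pow L m

theorem t (h : StmtVDC) : StmtLOW := by
  intro m q x L H A hH hHx hL
  -- sum over the choices
  have h1 : (H : ℝ) * ∏ a ∈ A, ∑ D ∈ DD m L, (∑ n ∈ Icc 1 x, ff q a D n) ^ 2 ≤
      (2 * (x : ℝ)) ^ A.card * (∏ a ∈ A, MM m q x L a +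
        2 * ∑ h ∈ Ico 1 H, ∏ a ∈ A, SS m q x L a h) := by
    have hM : ∏ a ∈ A, MM m q x L a = ∑ p ∈ A.pi (fun _ => DD m L),
        ∏ a ∈ A, ∑ n ∈ Icc 1 x, ff q a (gx A p a) n ^ 2 := by
      rw [← prod_sum' A (DD m L) (fun a D => ∑ n ∈ Icc 1 x, ff q a D n ^ 2)]
      refine Finset.prod_congr rfl fun a _ => ?_
      unfold MM
      simp only [ff_sq]
    have hS : ∀ k : ℕ, ∏ a ∈ A, SS m q x L a k = ∑ p ∈ A.pi (fun _ => DD m L),
        ∏ a ∈ A, ∑ n ∈ Icc 1 x, ff q a (gx A p a) n * ff q a (gx A p a) (n + k) := by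
      intro k
      rw [← prod_sum' A (DD m L) (fun a D => ∑ n ∈ Icc 1 x, ff q a D n * ff q a D (n + k))]
      rfl
    rw [prod_sum' A (DD m L) (fun a D => (∑ n ∈ Icc 1 x, ff q a D n) ^ 2), hM,
      Finset.sum_congr rfl fun k _ => hS k, Finset.sum_comm, Finset.mul_sum, Finset.mul_sum,
      ← Finset.sum_add_distrib, Finset.mul_sum]
    refine Finset.sum_le_sum fun p _ => ?_
    exact h A (fun a n => ff q a (gx A p a) n) x H hH hHx (fun a n => ff_nonneg _ _ _ _)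
  -- Cauchy-Schwarz
  have h2 : ∏ a ∈ A, MM m q x L a ^ 2 ≤ ((L : ℝ) ^ m) ^ A.card *
      ∏ a ∈ A, ∑ D ∈ DD m L, (∑ n ∈ Icc 1 x, ff q a D n) ^ 2 := by
    rw [← Finset.prod_const, ← Finset.prod_mul_distrib]
    refine Finset.prod_le_prod (fun a _ => sq_nonneg _) fun a _ => ?_
    have h3 : MM m q x L a ^ 2 ≤ (DD m L).card *
        ∑ D ∈ DD m L, (∑ n ∈ Icc 1 x, ff q a D n) ^ 2 := by
      unfold MM
      exact sq_sum_le_card_mul_sum_sq
    refine h3.trans (mul_le_mul_of_nonneg_right (card_DD m L) ?_)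
    exact Finset.sum_nonneg fun D _ => sq_nonneg _
  have hH0 : (0 : ℝ) ≤ H := Nat.cast_nonneg H
  have hL0 : (0 : ℝ) ≤ ((L : ℝ) ^ m) ^ A.card := by positivity
  calc (H : ℝ) * ∏ a ∈ A, MM m q x L a ^ 2
      ≤ H * (((L : ℝ) ^ m) ^ A.card *
        ∏ a ∈ A, ∑ D ∈ DD m L, (∑ n ∈ Icc 1 x, ff q a D n) ^ 2) :=
        mul_le_mul_of_nonneg_left h2 hH0
    _ = ((L : ℝ) ^ m) ^ A.card * (H *
        ∏ a ∈ A, ∑ D ∈ DD m L, (∑ n ∈ Icc 1 x, ff q a D n) ^ 2) := by ring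
    _ ≤ ((L : ℝ) ^ m) ^ A.card * ((2 * (x : ℝ)) ^ A.card * (∏ a ∈ A, MM m q x L a +
        2 * ∑ h ∈ Ico 1 H, ∏ a ∈ A, SS m q x L a h)) := mul_le_mul_of_nonneg_left h1 hL0
    _ = (2 * (x : ℝ) * (L : ℝ) ^ m) ^ A.card * (∏ a ∈ A, MM m q x L a +
        2 * ∑ h ∈ Ico 1 H, ∏ a ∈ A, SS m q x L a h) := by
      rw [mul_pow (2 * (x : ℝ)) ((L : ℝ) ^ m)]
      ring

end Pool.Agent.Helper34.PS.LOW
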